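import Mathlib
import Pool.Agent.helper35.DR.SpecC

set_option autoImplicit false

namespace Pool.Agent.DR

open Pool.Agent.helper58.DC Pool.Agent.DI

theorem CFI_mul {Γ : Type} [Group Γ] (a b : Γ) (f : Γ → ℂ) :
    funMap (MulAut.conj (a * b)) f = funMap (MulAut.conj a) (funMap (MulAut.conj b) f) := by
  funext g
  simp [funMap, mul_assoc]

theorem CFI_one {Γ : Type} [Group Γ] (f : Γ → ℂ) : funMap (MulAut.conj (1 : Γ)) f = f := by
  funext g
  simp [funMap]

theorem CFI_apply {Γ : Type} [Group Γ] (a x : Γ) (f : Γ → ℂ) :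
    funMap (MulAut.conj a) f x = f (a⁻¹ * x * a) := by
  simp [funMap]

/-- the induced function is a class function -/
theorem CFI_class {Γ : Type} [Group Γ] (L S : Subgroup Γ) (φ : Γ → ℂ) (l : Γ) (hl : l ∈ L) :
    funMap (MulAut.conj l) (indf L S φ) = indf L S φ := by
  funext x
  rw [CFI_apply]
  unfold indf
  congr 1
  apply finsum_mem_eq_of_bijOn (fun t => l * t)
  · refine ⟨?_, ?_, ?_⟩
    · intro t ht
      exact L.mul_mem hl ht
    · intro a _ b _ h
      exact mul_left_cancel h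
    · intro t ht
      refine ⟨l⁻¹ * t, L.mul_mem (L.inv_mem hl) ht, ?_⟩
      simp only [mul_inv_cancel_left]
  · intro t _
    congr 1
    group

/-- conjugation of `OverE` -/
theorem CFI_over {Γ : Type} [Group Γ] (K L : Subgroup Γ) (φ ψ : Γ → ℂ) (e : ℕ) (m : Γ)
    (hmK : m ∈ nz K) (hmL : m ∈ nz L) (hφ : funMap (MulAut.conj m) φ = φ)
    (h : OverE K L φ ψ e) : OverE K L φ (funMap (MulAut.conj m) ψ) e := by
  intro x hx
  have h1 : m⁻¹ * x * m ∈ K := by
    have h2 := (Subgroup.mem_normalizer_iff.mp ((nz K).inv_mem hmK) x).mp hx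
    rwa [inv_inv] at h2
  have h2 : φ x = φ (m⁻¹ * x * m) := by
    conv_lhs => rw [← hφ]
    exact CFI_apply m x φ
  rw [h2, h _ h1]
  congr 1
  apply finsum_mem_eq_of_bijOn (fun f => funMap (MulAut.conj m) f)
  · refine ⟨?_, ?_, ?_⟩
    · rintro f ⟨n, hn, rfl⟩
      refine ⟨m * n * m⁻¹, ?_, ?_⟩
      · exact (Subgroup.mem_normalizer_iff.mp hmL n).mp hn
      · show funMap (MulAut.conj m) (funMap (MulAut.conj n) ψ) = _
        rw [← CFI_mul, ← CFI_mul]
        congr 2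
        group
    · intro a _ b _ hab
      have h3 : funMap (MulAut.conj m⁻¹) (funMap (MulAut.conj m) a) =
          funMap (MulAut.conj m⁻¹) (funMap (MulAut.conj m) b) := congrArg _ hab
      rwa [← CFI_mul, ← CFI_mul, inv_mul_cancel, CFI_one, CFI_one] at h3
    · rintro f ⟨n, hn, rfl⟩
      refine ⟨funMap (MulAut.conj (m⁻¹ * n * m)) ψ, ⟨m⁻¹ * n * m, ?_, rfl⟩, ?_⟩
      · have h2 := (Subgroup.mem_normalizer_iff.mp ((nz L).inv_mem hmL) n).mp hn
        rwa [inv_inv] at h2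
      · show funMap (MulAut.conj m) (funMap (MulAut.conj (m⁻¹ * n * m)) ψ) = _
        rw [← CFI_mul, ← CFI_mul]
        congr 2
        group
  · intro f _
    exact (CFI_apply m x f).symm

/-- Invariance in the Clifford correspondence. -/
theorem CFI (hCCJ : CCJ_stmt) (hCFA : CFA_stmt) (hCFB : CFB_stmt) (hCFC : CFC_stmt) : CFI_stmt := by
  intro Γ _ _ K L M hKL hLM hMK hML ψ hψ φ₀ hφ₀ e he hres
  obtain ⟨hB1, hB2, -⟩ := hCFB Γ K L hKL (hLM.trans hMK) ψ hψ
  obtain ⟨hφ, hover, -⟩ := hB1 φ₀ hφ₀ e hres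
  obtain ⟨-, hC⟩ := hCFC Γ K L M hKL hLM hMK hML ψ
  constructor
  · intro hinv
    constructor
    · apply le_antisymm
      · apply sup_le
        · intro x hx
          exact hx.1
        · exact hLM
      · intro m hm
        have h1 := CFI_over K L _ ψ e m (hMK hm) (hML hm) (hinv m hm) hover
        have h2 : funMap (MulAut.conj m) ψ ∈ IrrOn K := ((hCCJ Γ K M hMK ψ hψ).1 m hm).1
        obtain ⟨-, n, hn, hmn⟩ := (hCFA Γ K L hKL (hLM.trans hMK)).2 _ ψ hψ _ h2 e e he he hover h1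
        have h3 : n⁻¹ * m ∈ stF M ψ := by
          refine ⟨M.mul_mem (M.inv_mem (hLM hn)) hm, ?_⟩
          rw [CFI_mul, hmn, ← CFI_mul, inv_mul_cancel, CFI_one]
        have h4 : m = n * (n⁻¹ * m) := by rw [mul_inv_cancel_left]
        rw [h4]
        exact (stF M ψ ⊔ L).mul_mem ((le_sup_right : L ≤ stF M ψ ⊔ L) hn)
          ((le_sup_left : stF M ψ ≤ stF M ψ ⊔ L) h3)
    · intro m hm
      obtain ⟨h1, h2⟩ := hC m hm φ₀
      rw [hinv m hm.1] at h1
      refine (hB2 φ₀ hφ₀ _ (h2 hφ₀) e e hres ?_ h1).symm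
      intro x hx
      have h3 : m⁻¹ * x * m ∈ K := by
        have h4 := (Subgroup.mem_normalizer_iff.mp ((nz K).inv_mem (hMK hm.1)) x).mp hx
        rwa [inv_inv] at h4
      have h5 : ψ (m⁻¹ * x * m) = ψ x := by rw [← CFI_apply m x ψ, hm.2]
      rw [CFI_apply, hres _ h3, h5]
  · rintro ⟨hsup, hinv⟩ m hm
    have h1 : stF M ψ ⊔ L ≤ stF ⊤ (indf L (stF L ψ) φ₀) := by
      apply sup_le
      · intro x hx
        refine ⟨Subgroup.mem_top x, ?_⟩
        rw [(hC x hx φ₀).1, hinv x hx]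
      · intro l hl
        exact ⟨Subgroup.mem_top l, CFI_class L _ φ₀ l hl⟩
    rw [hsup] at h1
    exact (h1 hm).2

end Pool.Agent.DR
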