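import Mathlib
import Pool.Agent.helper35.DR.SpecR

set_option autoImplicit false

namespace Pool.Agent.DR

open Pool.Agent.helper58.DC Pool.Agent.DI

theorem RYE_conj {Γ : Type} [Group Γ] (G₁ R : Subgroup Γ) (hG₁ : G₁.Normal) (m : Γ)
    (hm : m ∈ nz R) (k : Γ) (hk : k ∈ G₁ ⊓ cz R) : m * k * m⁻¹ ∈ G₁ ⊓ cz R := by
  refine ⟨hG₁.conj_mem k hk.1 m, ?_⟩
  show m * k * m⁻¹ ∈ cz R
  rw [Subgroup.mem_centralizer_iff]
  intro r hr
  have h1 : m⁻¹ * r * m ∈ R := (Subgroup.mem_normalizer_iff''.mp hm r).mp hr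
  have h2 : (m⁻¹ * r * m) * k = k * (m⁻¹ * r * m) :=
    (Subgroup.mem_centralizer_iff.mp hk.2) _ h1
  calc r * (m * k * m⁻¹) = m * ((m⁻¹ * r * m) * k) * m⁻¹ := by group
    _ = m * (k * (m⁻¹ * r * m)) * m⁻¹ := by rw [h2]
    _ = m * k * m⁻¹ * r := by group

/-- conjugation action of `nz R` on `G₁ ⊓ cz R` -/
def RYE_act {Γ : Type} [Group Γ] (G₁ R : Subgroup Γ) (hG₁ : G₁.Normal) :
    nz R →* MulAut ↥(G₁ ⊓ cz R) where
  toFun m :=
    { toFun := fun k => ⟨(m : Γ) * k * (m : Γ)⁻¹, RYE_conj G₁ R hG₁ m m.2 k k.2⟩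
      invFun := fun k => ⟨(m : Γ)⁻¹ * k * (m : Γ), by
        have h := RYE_conj G₁ R hG₁ (m : Γ)⁻¹ ((nz R).inv_mem m.2) k k.2
        rwa [inv_inv] at h⟩
      left_inv := by
        intro k
        apply Subtype.ext
        show (m : Γ)⁻¹ * ((m : Γ) * k * (m : Γ)⁻¹) * (m : Γ) = k
        group
      right_inv := by
        intro k
        apply Subtype.ext
        show (m : Γ) * ((m : Γ)⁻¹ * k * (m : Γ)) * (m : Γ)⁻¹ = k
        group
      map_mul' := by
        intro k k'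
        apply Subtype.ext
        show (m : Γ) * ((k : Γ) * k') * (m : Γ)⁻¹ =
          ((m : Γ) * k * (m : Γ)⁻¹) * ((m : Γ) * k' * (m : Γ)⁻¹)
        group }
  map_one' := by
    apply MulEquiv.ext
    intro k
    apply Subtype.ext
    show (1 : Γ) * k * (1 : Γ)⁻¹ = k
    group
  map_mul' := by
    intro a b
    apply MulEquiv.ext
    intro k
    apply Subtype.ext
    show ((a : Γ) * b) * k * ((a : Γ) * b)⁻¹ = (a : Γ) * ((b : Γ) * k * (b : Γ)⁻¹) * (a : Γ)⁻¹
    group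

theorem RYE_act_apply {Γ : Type} [Group Γ] (G₁ R : Subgroup Γ) (hG₁ : G₁.Normal) (m : nz R)
    (k : ↥(G₁ ⊓ cz R)) : ((RYE_act G₁ R hG₁ m k : ↥(G₁ ⊓ cz R)) : Γ) = m * k * (m : Γ)⁻¹ := rfl

/-- The extension `1 → G₁ ⊓ cz R → nz R / R → Γ / G₂ → 1`. -/
theorem RYE : RYE_stmt := by
  intro Γ _ _ G₁ G₂ R _ hG₁ h12 hcomm hR hRG hRG2 hnz
  have habel : ∀ x ∈ R, ∀ y ∈ R, x * y = y * x := by
    intro x hx y hy
    have h1 : x * y * x⁻¹ * y⁻¹ ∈ R ⊓ G₁ :=
      ⟨R.mul_mem (R.mul_mem (R.mul_mem hx hy) (R.inv_mem hx)) (R.inv_mem hy),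
        hcomm x (hR hx) y (hR hy)⟩
    rw [hRG, Subgroup.mem_bot] at h1
    have h2 : x * y = (x * y * x⁻¹ * y⁻¹) * (y * x) := by group
    rw [h2, h1, one_mul]
  have hKn : G₁ ⊓ cz R ≤ nz R := by
    intro k hk
    rw [Subgroup.mem_normalizer_iff]
    intro r
    have hcomm' : ∀ r ∈ R, k * r * k⁻¹ = r := by
      intro r hr
      have h1 := (Subgroup.mem_centralizer_iff.mp hk.2) r hr
      rw [← h1]
      group
    constructor
    · intro hr
      rw [hcomm' r hr]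
      exact hr
    · intro hr
      have h1 : k⁻¹ * (k * r * k⁻¹) * k = k * r * k⁻¹ := by
        have h2 := (Subgroup.mem_centralizer_iff.mp hk.2) _ hr
        rw [mul_assoc, h2]
        group
      have h2 : r = k * r * k⁻¹ := by
        rw [← h1]
        group
      rw [h2]
      exact hr
  have hGn : ∀ x ∈ G₁, x ∈ nz R → x ∈ cz R := by
    intro x hx hxn
    rw [Subgroup.mem_centralizer_iff]
    intro r hr
    have h1 : x * r * x⁻¹ * r⁻¹ ∈ R ⊓ G₁ := by
      refine ⟨R.mul_mem ((Subgroup.mem_normalizer_iff.mp hxn r).mp hr) (R.inv_mem hr), ?_⟩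
      have h2 : x * r * x⁻¹ * r⁻¹ = x * (r * x⁻¹ * r⁻¹) := by group
      rw [h2]
      exact G₁.mul_mem hx (hG₁.conj_mem _ (G₁.inv_mem hx) r)
    rw [hRG, Subgroup.mem_bot] at h1
    have h2 : x * r = (x * r * x⁻¹ * r⁻¹) * (r * x) := by group
    rw [h2, h1, one_mul]
  -- decomposition
  have hdec : ∀ x, x ∈ nz R → x ∈ G₂ → ∃ r ∈ R, ∃ k ∈ G₁ ⊓ cz R, x = r * k := by
    intro x hxn hx2
    rw [← hRG2] at hx2
    have h1 : x ∈ ((R ⊔ G₁ : Subgroup Γ) : Set Γ) := hx2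
    rw [Subgroup.mul_normal R G₁] at h1
    obtain ⟨r, hr, g, hg, hrg⟩ := h1
    refine ⟨r, hr, g, ⟨hg, hGn g hg ?_⟩, hrg.symm⟩
    have h2 : g = r⁻¹ * x := by
      rw [← hrg]
      simp only [inv_mul_cancel_left]
    rw [h2]
    exact (nz R).mul_mem ((nz R).inv_mem (Subgroup.le_normalizer hr)) hxn
  refine ⟨?_, habel, ?_⟩
  · apply le_antisymm
    · rintro x ⟨hxn, hx2⟩
      obtain ⟨r, hr, k, hk, rfl⟩ := hdec x hxn hx2
      exact (R ⊔ (G₁ ⊓ cz R)).mul_mem ((le_sup_left : R ≤ R ⊔ (G₁ ⊓ cz R)) hr)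
        ((le_sup_right : (G₁ ⊓ cz R) ≤ R ⊔ (G₁ ⊓ cz R)) hk)
    · apply sup_le
      · exact le_inf Subgroup.le_normalizer hR
      · exact le_inf hKn (inf_le_left.trans h12)
  · have hnor : (R.subgroupOf (nz R)).Normal := Subgroup.normal_in_normalizer
    have hmemR : ∀ x : nz R, x ∈ R.subgroupOf (nz R) ↔ (x : Γ) ∈ R := fun x =>
      Subgroup.mem_subgroupOf
    have hact : ∀ x ∈ R.subgroupOf (nz R), RYE_act G₁ R hG₁ x = 1 := by
      intro x hx
      apply MulEquiv.ext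
      intro k
      apply Subtype.ext
      rw [RYE_act_apply]
      show (x : Γ) * k * (x : Γ)⁻¹ = k
      have h1 := (Subgroup.mem_centralizer_iff.mp k.2.2) (x : Γ) ((hmemR x).mp hx)
      rw [h1]
      group
    have hpr : ∀ x ∈ R.subgroupOf (nz R),
        ((QuotientGroup.mk' G₂).comp (nz R).subtype) x = 1 := by
      intro x hx
      show ((x : Γ) : Γ ⧸ G₂) = 1
      rw [QuotientGroup.eq_one_iff]
      exact hR ((hmemR x).mp hx)
    have hmk1 : ∀ x : nz R, QuotientGroup.mk' (R.subgroupOf (nz R)) x = 1 ↔ (x : Γ) ∈ R := by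
      intro x
      rw [← hmemR x]
      exact QuotientGroup.eq_one_iff x
    refine ⟨nz R ⧸ R.subgroupOf (nz R), inferInstance, inferInstance,
      { inc := (QuotientGroup.mk' (R.subgroupOf (nz R))).comp (Subgroup.inclusion hKn)
        proj := QuotientGroup.lift (R.subgroupOf (nz R))
          ((QuotientGroup.mk' G₂).comp (nz R).subtype) hpr
        inc_injective := ?_
        proj_surjective := ?_
        exact := ?_
        act := QuotientGroup.lift (R.subgroupOf (nz R)) (RYE_act G₁ R hG₁) hact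
        act_spec := ?_ }, QuotientGroup.mk' (R.subgroupOf (nz R)),
      QuotientGroup.mk'_surjective _, hmk1, ?_, ?_, ?_⟩
    · rw [injective_iff_map_eq_one]
      intro k hk
      have h1 : (k : Γ) ∈ R := (hmk1 (Subgroup.inclusion hKn k)).mp hk
      have h2 : (k : Γ) ∈ R ⊓ G₁ := ⟨h1, k.2.1⟩
      rw [hRG, Subgroup.mem_bot] at h2
      exact Subtype.ext h2
    · intro y
      obtain ⟨g, rfl⟩ := QuotientGroup.mk'_surjective G₂ y
      have h1 : g ∈ ((nz R ⊔ G₂ : Subgroup Γ) : Set Γ) := by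
        rw [hnz]
        exact Subgroup.mem_top g
      rw [Subgroup.mul_normal (nz R) G₂] at h1
      obtain ⟨m, hm, x, hx, hmx⟩ := h1
      refine ⟨QuotientGroup.mk' (R.subgroupOf (nz R)) ⟨m, hm⟩, ?_⟩
      show ((m : Γ) : Γ ⧸ G₂) = (g : Γ ⧸ G₂)
      rw [QuotientGroup.eq]
      have h2 : m⁻¹ * g = x := by
        rw [← hmx]
        simp only [inv_mul_cancel_left]
      rw [h2]
      exact hx
    · intro y
      obtain ⟨m, rfl⟩ := QuotientGroup.mk'_surjective (R.subgroupOf (nz R)) y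
      have h1 : QuotientGroup.lift (R.subgroupOf (nz R))
          ((QuotientGroup.mk' G₂).comp (nz R).subtype) hpr
          (QuotientGroup.mk' (R.subgroupOf (nz R)) m) = ((m : Γ) : Γ ⧸ G₂) := rfl
      rw [h1, QuotientGroup.eq_one_iff]
      constructor
      · intro hm2
        obtain ⟨r, hr, k, hk, hrk⟩ := hdec m m.2 hm2
        refine ⟨⟨k, hk⟩, ?_⟩
        show QuotientGroup.mk' (R.subgroupOf (nz R)) (⟨k, hKn hk⟩ : nz R) =
          QuotientGroup.mk' (R.subgroupOf (nz R)) m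
        have h2 : m = (⟨r, Subgroup.le_normalizer hr⟩ : nz R) * (⟨k, hKn hk⟩ : nz R) :=
          Subtype.ext hrk
        rw [h2, map_mul, (hmk1 ⟨r, Subgroup.le_normalizer hr⟩).mpr hr, one_mul]
      · rintro ⟨k, hk⟩
        have h2 : QuotientGroup.mk' (R.subgroupOf (nz R)) (Subgroup.inclusion hKn k) =
          QuotientGroup.mk' (R.subgroupOf (nz R)) m := hk
        have h3 : QuotientGroup.mk' (R.subgroupOf (nz R)) ((Subgroup.inclusion hKn k)⁻¹ * m) = 1 := by
          rw [map_mul, map_inv, h2, inv_mul_cancel]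
        have h4 : (k : Γ)⁻¹ * (m : Γ) ∈ R := (hmk1 _).mp h3
        have h5 : (m : Γ) = (k : Γ) * ((k : Γ)⁻¹ * (m : Γ)) := by rw [mul_inv_cancel_left]
        rw [h5]
        exact G₂.mul_mem (h12 k.2.1) (hR h4)
    · intro y k
      obtain ⟨m, rfl⟩ := QuotientGroup.mk'_surjective (R.subgroupOf (nz R)) y
      show QuotientGroup.mk' (R.subgroupOf (nz R))
          (Subgroup.inclusion hKn (RYE_act G₁ R hG₁ m k)) =
        QuotientGroup.mk' (R.subgroupOf (nz R)) m *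
          QuotientGroup.mk' (R.subgroupOf (nz R)) (Subgroup.inclusion hKn k) *
          (QuotientGroup.mk' (R.subgroupOf (nz R)) m)⁻¹
      rw [← map_mul, ← map_inv, ← map_mul]
      congr 1
    · intro k hk
      rfl
    · intro m
      rfl
    · intro m k
      rfl

end Pool.Agent.DR
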