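import Mathlib
import Pool.Agent.helper35.DR.SpecA
import Pool.Agent.helper35.DR.SpecT

set_option autoImplicit false

namespace Pool.Agent.DR

open Pool.Agent.helper58.DC Pool.Agent.DI

/-- The number `inn` by defects. -/
theorem TIN (hTCL : TCL_stmt) (hECD : ECD_stmt) (hB2 : Pool.Agent.DI.B2_stmt) : TIN_stmt := by
  intro Γ Q _ _ _ _ q S hS ψ hψ α hα hasc N hN p _ d D hd
  rw [← hTCL Γ Q q S hS ψ hψ α hα hasc N hN
    (fun k => (padicValNat p k : ℤ) = d + padicValNat p (Nat.card N) - D)]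
  unfold inn
  refine Nat.card_congr (Equiv.subtypeEquivRight fun φ => ?_)
  have hcard := hECD Γ Q q S N
  rw [hS, top_inf_eq] at hcard
  have hK0 : Nat.card (S ⊓ q.ker : Subgroup Γ) ≠ 0 := Nat.card_pos.ne'
  have hN0 : Nat.card N ≠ 0 := Nat.card_pos.ne'
  obtain ⟨n0, hn0, hd0⟩ := hd
  obtain ⟨n1, hn1, hn1', -⟩ := ((hB2 Γ (S ⊓ q.ker)).2 ψ hψ).1
  have hn01 : n0 = n1 := by
    have h1 : (n0 : ℂ) = n1 := by rw [← hn0, ← hn1']
    exact_mod_cast h1
  have hn00 : n0 ≠ 0 := by omega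
  have key : φ ∈ IrrOn (S ⊓ N.comap q) → ∀ e : ℕ, (∀ x ∈ S ⊓ q.ker, φ x = e * ψ x) →
      (Defect p (S ⊓ N.comap q) φ D ↔
        (padicValNat p e : ℤ) = d + padicValNat p (Nat.card N) - D) := by
    intro hφ e he
    obtain ⟨n, hn, hn', -⟩ := ((hB2 Γ (S ⊓ N.comap q)).2 φ hφ).1
    have h1 : n = e * n0 := by
      have h2 : (n : ℂ) = e * n0 := by
        rw [← hn', ← hn0]
        exact he 1 (Subgroup.one_mem _)
      exact_mod_cast h2
    have he0 : e ≠ 0 := by
      rintro rfl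
      rw [Nat.zero_mul] at h1
      omega
    have h3 : padicValNat p n = padicValNat p e + padicValNat p n0 := by
      rw [h1, padicValNat.mul he0 hn00]
    have h4 : padicValNat p (Nat.card (S ⊓ N.comap q : Subgroup Γ)) =
        padicValNat p (Nat.card (S ⊓ q.ker : Subgroup Γ)) + padicValNat p (Nat.card N) := by
      rw [hcard, padicValNat.mul hK0 hN0]
    constructor
    · rintro ⟨n', hn1, hD⟩
      have h5 : n' = n := by
        have h6 : (n' : ℂ) = n := by rw [← hn1, ← hn']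
        exact_mod_cast h6
      rw [h5, h4, h3, Nat.cast_add, Nat.cast_add] at hD
      rw [hd0]
      linarith
    · intro h5
      refine ⟨n, hn', ?_⟩
      rw [h4, h3, Nat.cast_add, Nat.cast_add]
      rw [hd0] at h5
      linarith
  constructor
  · rintro ⟨h1, ⟨e, he⟩, h3, h4⟩
    exact ⟨h1, ⟨e, (key h1 e he).mp h4, he⟩, h3⟩
  · rintro ⟨h1, ⟨e, hP, he⟩, h3⟩
    exact ⟨h1, ⟨e, he⟩, h3, (key h1 e he).mpr hP⟩

end Pool.Agent.DR
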